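import Pool.Agent.Helper51.LT.St2

/-!
Project LT (MP_d6acc2_an), module UPJ: the upper bound for the exponents.
-/

set_option autoImplicit false

namespace Pool.Agent.Helper75.LT

open Finset Pool.Agent.Helper51.LT
open Pool.Agent.Helper60.Rel (LH tc Admissible ClassS LogData om th kap K1 uu gp gp_norm om_nonneg
  log_K1 log_absorb exists_logData goluzin)

theorem hUpj (hOme : StOme) (hCoj : StCoj) : StUpj := by
  classical
  intro δ C₀ ε m j₀ hδ0 hδ1 hjδ hC₀ hUnf hm hj hjm hε0 f hf k _
  obtain ⟨G, lam, h⟩ := exists_logData hf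
  obtain ⟨B, hB0, hB⟩ := h.lower
  obtain ⟨Cω, hCω0, hCω⟩ := hOme f G lam δ C₀ h hδ0 hδ1 hC₀ hUnf
  obtain ⟨C, hC0, hC⟩ := goluzin h.bnd
  obtain ⟨Cr, hCr0, hCr⟩ := h.relation m k
  set y : ℝ := (2 / (j₀ : ℝ) - δ) * qr δ ^ (m + 1 - j₀) with hy
  set al : ℝ := -1 + δ + y + ε with hal
  set P : ℝ := ((m + 1) + (m + 1) * (m + 1)) + 3 with hP
  have hP0 : 0 < P := by rw [hP]; positivity
  set b : ℝ := ε / P with hb
  have hb0 : 0 < b := by rw [hb]; positivity
  set c : ℝ := C + B + 4 with hc
  have hc0 : 0 < c := by rw [hc]; positivity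
  set A : ℝ := Real.log (2 * (m + 1)) + (m + 1) * Real.log c
      + (m + 1) * (m + 1) * Real.log 2 + (m + 1) * Real.log 10000
      + 1 + m * Real.log 2 + Real.log (Cω + 1) + δ * Real.log 2 + y * Real.log 2
      + ((m + 1) + (C + 2)) + ε - P - P * Real.log b with hA
  have key : ∀ n : ℕ, 1 ≤ n → ∀ E : ℝ, 0 < E →
      (∀ J : Fin m → Fin n, E ≤ ∑ i, (Real.exp (uu G n i) * om G n i)
        * ∏ a, kap (gp n) i (J a)) → E ≤ Real.exp A * (n : ℝ) ^ (1 + al) := by
    intro n hn E hE hS
    have h0 : (0 : ℝ) < n := by positivity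
    have hn1 : (1 : ℝ) ≤ n := by exact_mod_cast hn
    have hlog0 : 0 ≤ Real.log n := Real.log_nonneg hn1
    have hσ0 : (0 : ℝ) < 1 / n := by positivity
    have hσ1 : (1 : ℝ) / n ≤ 1 := by rw [div_le_one h0]; exact hn1
    have hT0 : 0 < 1 + Real.log n := by linarith
    have hup : ∀ i, uu G n i ≤ 2 * Real.log n + C := by
      intro i
      have h1 := hC Unit (1 / (n : ℝ)) hσ0 hσ1 (fun _ => th n i) (fun _ => 1)
        (fun _ => by norm_num)
      simp only [univ_unique, sum_singleton, one_mul, min_self, sub_self, norm_zero, mul_one,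
        one_pow] at h1
      rw [max_eq_right hσ0.le, one_div, Real.log_inv, neg_neg] at h1
      unfold uu
      rw [one_div]
      exact h1
    set N : ℕ := ⌈2 * Real.log n + C + B⌉₊ with hN
    have hu : ∀ i, 0 ≤ uu G n i + B := by
      intro i
      have := hB (-((1 / (n : ℝ) : ℝ) : ℂ) + th n i * Complex.I) (by
        show (-((1 / (n : ℝ) : ℝ) : ℂ) + th n i * Complex.I).re < 0
        have : (-((1 / (n : ℝ) : ℝ) : ℂ) + th n i * Complex.I).re = -(1 / (n : ℝ)) := by
          simp
        rw [this]; linarith) (by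
        have : (-((1 / (n : ℝ) : ℝ) : ℂ) + th n i * Complex.I).re = -(1 / (n : ℝ)) := by
          simp
        rw [this]; linarith)
      unfold uu
      linarith
    have hu2 : ∀ i, uu G n i + B ≤ N := by
      intro i
      have h1 := hup i
      have h2 := Nat.le_ceil (2 * Real.log n + C + B)
      rw [← hN] at h2
      linarith
    have hNb : (N : ℝ) + 1 ≤ c * (1 + Real.log n) := by
      have h2 := Nat.ceil_lt_add_one (a := 2 * Real.log n + C + B) (by positivity)
      rw [← hN] at h2
      rw [hc]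
      nlinarith [mul_nonneg hC0 hlog0, mul_nonneg hB0 hlog0]
    have hcore := hCoj n m j₀ hn hm hj hjm (gp n) (gp_norm n) (uu G n) (fun i => om G n i)
      (fun i => om_nonneg G n i) B N hu hu2 E hE hS ((Cω + 1) * (1 + Real.log n) ^ 2) δ C
      (by positivity) hδ0 hjδ (by linarith)
      (by
        intro A j ρ k hρ hA hlev
        refine le_trans (hCω n hn A j ρ k hρ hA hlev) ?_
        have hρ0 : 0 < ρ := lt_of_lt_of_le hσ0 hρ
        have h1 : 0 ≤ (n * ρ) ^ δ := by positivity
        have h2 : 0 ≤ (1 + Real.log n) ^ 2 := by positivity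
        nlinarith [mul_nonneg h2 h1])
      (by
        intro γ hγ
        exact hC (Fin n) (1 / (n : ℝ)) hσ0 hσ1 (fun i => th n i) γ hγ)
    have hlc : Real.log ((Cω + 1) * (1 + Real.log n) ^ 2)
        = Real.log (Cω + 1) + 2 * Real.log (1 + Real.log n) := by
      rw [Real.log_mul (by positivity) (by positivity), Real.log_pow]
      push_cast
      ring
    rw [hlc] at hcore
    have hK := log_K1 (m := m) hn hc0 hNb
    have habs := log_absorb hb0 hlog0
    have habs2 : P * Real.log (1 + Real.log n) ≤ P * (b * (1 + Real.log n) - 1 - Real.log b) :=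
      mul_le_mul_of_nonneg_left habs hP0.le
    have hPb : P * (b * (1 + Real.log n) - 1 - Real.log b)
        = ε * (1 + Real.log n) - P - P * Real.log b := by
      rw [hb]; field_simp
    rw [hPb] at habs2
    have hl2 : Real.log (2 * n) = Real.log 2 + Real.log n :=
      Real.log_mul (by norm_num) h0.ne'
    rw [hl2, ← hy] at hcore
    have hPL : P * Real.log (1 + Real.log n)
        = ((m + 1) + (m + 1) * (m + 1)) * Real.log (1 + Real.log n)
          + 3 * Real.log (1 + Real.log n) := by rw [hP]; ring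
    have hfin : Real.log E ≤ A + (1 + al) * Real.log n := by
      have e1 : (1 + al) = δ + y + ε := by rw [hal]; ring
      rw [e1, hA]
      linarith
    calc E = Real.exp (Real.log E) := (Real.exp_log hE).symm
      _ ≤ Real.exp (A + (1 + al) * Real.log n) := Real.exp_le_exp.2 hfin
      _ = Real.exp A * (n : ℝ) ^ (1 + al) := by
          rw [Real.exp_add, Real.rpow_def_of_pos h0, mul_comm (Real.log n)]
  refine ⟨Cr * Real.exp A, ?_⟩
  intro n hn
  have h0 : (0 : ℝ) < n := by positivity
  have : Nonempty (Fin n) := ⟨⟨0, by omega⟩⟩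
  obtain ⟨J, hJ⟩ := Finite.exists_min (fun J : Fin m → Fin n =>
    ∑ i, (Real.exp (uu G n i) * om G n i) * ∏ a, kap (gp n) i (J a))
  obtain ⟨c', hc0', hcm, hcj⟩ := hCr n hn J
  refine ⟨c', hc0', hcm, ?_⟩
  intro j hj
  refine le_trans (hcj j hj) ?_
  set E := ∑ i, (Real.exp (uu G n i) * om G n i) * ∏ a, kap (gp n) i (J a) with hEd
  have hEb : E ≤ Real.exp A * (n : ℝ) ^ (1 + al) := by
    rcases le_or_gt E 0 with hle | hgt
    · exact le_trans hle (by positivity)
    · exact key n hn E hgt hJ
  calc Cr / n * E ≤ Cr / n * (Real.exp A * (n : ℝ) ^ (1 + al)) :=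
        mul_le_mul_of_nonneg_left hEb (by positivity)
    _ = Cr * Real.exp A * (n : ℝ) ^ al := by
        rw [Real.rpow_add h0, Real.rpow_one]
        field_simp

end Pool.Agent.Helper75.LT
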