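import Pool.Agent.Helper49.LT.StB

/-!
# Project LT (MP_b21509_co), module CI3: weighted integral of the chord bound
-/

open MeasureTheory Set Filter Metric

namespace Pool.Agent.Helper75.LT

open Helper49.LT Helper97.CB

/-- periodic substitution -/
private theorem subst_int {s s' : ℝ → ℝ} (hs : ∀ u, s (u + 2 * Real.pi) = s u)
    (hd : ∀ u, HasDerivAt s (s' u) u) (hc : Continuous s') {g : ℝ → ℝ} (hg : Continuous g)
    (hp : ∀ t, g (t + 2 * Real.pi) = g t) :
    ∫ u in (0 : ℝ)..(2 * Real.pi), g (u + s u) * (1 + s' u) =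
      ∫ t in (0 : ℝ)..(2 * Real.pi), g t := by
  have h1 := intervalIntegral.integral_comp_mul_deriv (a := 0) (b := 2 * Real.pi)
    (f := fun u => u + s u) (f' := fun u => 1 + s' u) (g := g)
    (fun x _ => (hasDerivAt_id x).add (hd x)) (by fun_prop) hg
  simp only [Function.comp_def] at h1
  rw [h1]
  have hp' : Function.Periodic g (2 * Real.pi) := hp
  have h2 := hp'.intervalIntegral_add_eq (s 0) 0
  have h3 : 2 * Real.pi + s (2 * Real.pi) = s 0 + 2 * Real.pi := by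
    have := hs 0
    rw [zero_add] at this
    rw [this]; ring
  rw [h3, zero_add]
  rw [zero_add] at h2
  exact h2

private theorem pi_pos2 : (0 : ℝ) ≤ 2 * Real.pi := by positivity

private theorem subst_le {s s' : ℝ → ℝ} (hs : ∀ u, s (u + 2 * Real.pi) = s u)
    (hd : ∀ u, HasDerivAt s (s' u) u) (hc : Continuous s') (hb : ∀ u, |s' u| ≤ 1 / 2)
    {g : ℝ → ℝ} (hg : Continuous g)
    (hp : ∀ t, g (t + 2 * Real.pi) = g t) (h0 : ∀ t, 0 ≤ g t) :
    ∫ u in (0 : ℝ)..(2 * Real.pi), g (u + s u) ≤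
      2 * ∫ t in (0 : ℝ)..(2 * Real.pi), g t := by
  have hsc : Continuous s := continuous_iff_continuousAt.2 fun u => (hd u).continuousAt
  rw [← subst_int hs hd hc hg hp, ← intervalIntegral.integral_const_mul]
  apply intervalIntegral.integral_mono_on pi_pos2
  · exact (hg.comp (continuous_id.add hsc)).intervalIntegrable _ _
  · apply Continuous.intervalIntegrable
    exact continuous_const.mul ((hg.comp (continuous_id.add hsc)).mul (continuous_const.add hc))
  · intro u _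
    have h1 := hb u
    rw [abs_le] at h1
    have h2 := h0 (u + s u)
    nlinarith

/-- Cauchy-Schwarz with the constant function -/
private theorem cs_one {f : ℝ → ℝ} (hm : Measurable f) {η : ℝ} (hb : ∀ t, |f t| ≤ η) :
    (∫ t in (0 : ℝ)..(2 * Real.pi), |f t|) ^ 2 ≤
      2 * Real.pi * ∫ t in (0 : ℝ)..(2 * Real.pi), f t ^ 2 := by
  have hη : 0 ≤ η := (abs_nonneg _).trans (hb 0)
  have i1 : IntervalIntegrable (fun t => |f t|) volume 0 (2 * Real.pi) := by
    have hc : IntervalIntegrable (fun _ : ℝ => η) volume 0 (2 * Real.pi) := intervalIntegrable_const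
    refine hc.mono_fun hm.abs.aestronglyMeasurable ?_
    filter_upwards with x
    simpa [abs_of_nonneg hη] using hb x
  have i2 : IntervalIntegrable (fun t => f t ^ 2) volume 0 (2 * Real.pi) := by
    have hc : IntervalIntegrable (fun _ : ℝ => η ^ 2) volume 0 (2 * Real.pi) :=
      intervalIntegrable_const
    refine hc.mono_fun (hm.pow_const 2).aestronglyMeasurable ?_
    filter_upwards with x
    have := hb x
    rw [Real.norm_eq_abs, Real.norm_eq_abs, abs_of_nonneg (sq_nonneg _), abs_of_nonneg (sq_nonneg _)]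
    rw [← sq_abs (f x)]
    exact pow_le_pow_left₀ (abs_nonneg _) this 2
  set L := ∫ t in (0 : ℝ)..(2 * Real.pi), |f t| with hL
  set m := L / (2 * Real.pi) with hm'
  have h1 : 0 ≤ ∫ t in (0 : ℝ)..(2 * Real.pi), (f t ^ 2 - 2 * m * |f t| + m ^ 2) := by
    apply intervalIntegral.integral_nonneg pi_pos2
    intro t _
    have : f t ^ 2 - 2 * m * |f t| + m ^ 2 = (|f t| - m) ^ 2 := by
      rw [sub_sq, sq_abs]; ring
    rw [this]; positivity
  have h2 : ∫ t in (0 : ℝ)..(2 * Real.pi), (f t ^ 2 - 2 * m * |f t| + m ^ 2) =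
      (∫ t in (0 : ℝ)..(2 * Real.pi), f t ^ 2) - 2 * m * L + m ^ 2 * (2 * Real.pi) := by
    rw [intervalIntegral.integral_add (i2.sub (i1.const_mul _)) intervalIntegrable_const,
      intervalIntegral.integral_sub i2 (i1.const_mul _), intervalIntegral.integral_const_mul,
      intervalIntegral.integral_const, ← hL]
    simp only [smul_eq_mul, sub_zero]
    ring
  rw [h2] at h1
  have hp : 0 < 2 * Real.pi := by positivity
  have h3 : L = m * (2 * Real.pi) := by rw [hm']; field_simp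
  have h4 : 2 * m * L = 2 * m ^ 2 * (2 * Real.pi) := by rw [h3]; ring
  rw [h4] at h1
  have h5 : L ^ 2 = m ^ 2 * (2 * Real.pi) * (2 * Real.pi) := by
    calc L ^ 2 = (m * (2 * Real.pi)) ^ 2 := by rw [← h3]
      _ = _ := by ring
  rw [h5]
  nlinarith

/-- a crude Poincaré inequality -/
private theorem poin {η : ℝ} {w w' : ℝ → ℝ} (h : Rough η w w')
    (h0 : ∫ t in (0 : ℝ)..(2 * Real.pi), w t = 0) : q2 w ≤ 40 * q2 w' := by
  have hp : 0 < 2 * Real.pi := by positivity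
  set L := ∫ t in (0 : ℝ)..(2 * Real.pi), |w' t| with hL
  have ia : ∀ a b, IntervalIntegrable (fun t => |w' t|) volume a b := fun a b => (h.int' a b).abs
  have hd : ∀ a ∈ Icc (0 : ℝ) (2 * Real.pi), ∀ b ∈ Icc (0 : ℝ) (2 * Real.pi),
      |w b - w a| ≤ L := by
    have key : ∀ a ∈ Icc (0 : ℝ) (2 * Real.pi), ∀ b ∈ Icc (0 : ℝ) (2 * Real.pi), a ≤ b →
        |w b - w a| ≤ L := by
      intro a ha b hb hab
      rw [← h.ftc a b]
      calc |∫ t in a..b, w' t| ≤ ∫ t in a..b, |w' t| :=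
            intervalIntegral.abs_integral_le_integral_abs hab
        _ ≤ L := by
            rw [hL]
            apply intervalIntegral.integral_mono_interval ha.1 hab hb.2 _ (ia _ _)
            filter_upwards with t
            exact abs_nonneg _
    intro a ha b hb
    rcases le_total a b with hab | hab
    · exact key a ha b hb hab
    · rw [abs_sub_comm]; exact key b hb a ha hab
  have hw : ∀ a ∈ Icc (0 : ℝ) (2 * Real.pi), |w a| ≤ L := by
    intro a ha
    have h1 : 2 * Real.pi * w a = ∫ b in (0 : ℝ)..(2 * Real.pi), (w a - w b) := by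
      rw [intervalIntegral.integral_sub intervalIntegrable_const (h.int _ _), h0,
        intervalIntegral.integral_const]
      simp only [smul_eq_mul, sub_zero]
    have h2 : |2 * Real.pi * w a| ≤ L * |2 * Real.pi - 0| := by
      rw [h1]
      rw [← Real.norm_eq_abs]
      apply intervalIntegral.norm_integral_le_of_norm_le_const
      intro b hb
      rw [uIoc_of_le pi_pos2] at hb
      rw [Real.norm_eq_abs]
      exact hd b ⟨hb.1.le, hb.2⟩ a ha
    rw [abs_mul, sub_zero, abs_of_pos hp, mul_comm L] at h2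
    exact le_of_mul_le_mul_left h2 hp
  have h3 : q2 w ≤ 2 * Real.pi * L ^ 2 := by
    have : (2 * Real.pi) * L ^ 2 = ∫ t in (0 : ℝ)..(2 * Real.pi), L ^ 2 := by
      rw [intervalIntegral.integral_const]; simp
    rw [this]
    apply intervalIntegral.integral_mono_on pi_pos2 ((h.con.pow 2).intervalIntegrable _ _)
      intervalIntegrable_const
    intro t ht
    show w t ^ 2 ≤ L ^ 2
    rw [← sq_abs (w t)]
    exact pow_le_pow_left₀ (abs_nonneg _) (hw t ht) 2
  have h4 := cs_one h.mea h.bdd'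
  rw [← hL] at h4
  have h5 : 0 ≤ q2 w' := intervalIntegral.integral_nonneg pi_pos2 fun t _ => sq_nonneg _
  have h6 : 2 * Real.pi * (2 * Real.pi) ≤ 40 := by
    have := Real.pi_lt_d2
    have := Real.pi_pos
    nlinarith
  calc q2 w ≤ 2 * Real.pi * L ^ 2 := h3
    _ ≤ 2 * Real.pi * (2 * Real.pi * q2 w') := by
        apply mul_le_mul_of_nonneg_left h4 hp.le
    _ = (2 * Real.pi * (2 * Real.pi)) * q2 w' := by ring
    _ ≤ 40 * q2 w' := mul_le_mul_of_nonneg_right h6 h5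

/-! ### the weight -/

private theorem wW_cont (ω : ℂ) (n : ℕ) : Continuous (wW ω n) := by
  unfold wW
  have := continuous_ee
  fun_prop

private theorem wW_per (ω : ℂ) (n : ℕ) (u : ℝ) : wW ω n (u + 2 * Real.pi) = wW ω n u := by
  unfold wW
  have := ee_int (-(n : ℤ)) u
  push_cast at this
  rw [this]

private theorem re_bd {ω : ℂ} (hω : ‖ω‖ ≤ 1) (c : ℝ) : |(ω * ee c).re| ≤ 1 := by
  calc |(ω * ee c).re| ≤ ‖ω * ee c‖ := Complex.abs_re_le_norm _
    _ ≤ 1 := by rw [norm_mul, norm_ee, mul_one]; exact hω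

private theorem wW_nonneg {ω : ℂ} (hω : ‖ω‖ ≤ 1) (n : ℕ) (u : ℝ) : 0 ≤ wW ω n u := by
  unfold wW
  have := re_bd hω (-(n : ℝ) * u)
  rw [abs_le] at this
  linarith

private theorem wW_le {ω : ℂ} (hω : ‖ω‖ ≤ 1) (n : ℕ) (u : ℝ) : wW ω n u ≤ 2 := by
  unfold wW
  have := re_bd hω (-(n : ℝ) * u)
  rw [abs_le] at this
  linarith

private theorem ee_lip (a b : ℝ) : ‖ee a - ee b‖ ≤ |a - b| := by
  have h : ∀ x ∈ (univ : Set ℝ), HasDerivWithinAt ee (Complex.I * ee x) univ x := fun x _ =>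
    (hasDerivAt_ee' x).hasDerivWithinAt
  have := Convex.norm_image_sub_le_of_norm_hasDerivWithin_le (f := ee) (C := 1) h
    (fun x _ => by simp [norm_ee]) convex_univ (mem_univ b) (mem_univ a)
  simpa using this

private theorem wW_lip {ω : ℂ} (hω : ‖ω‖ ≤ 1) {n : ℕ} (hn : n ≤ 10) (a b : ℝ) :
    |wW ω n a - wW ω n b| ≤ 10 * |a - b| := by
  have h1 : wW ω n a - wW ω n b = (ω * (ee (-(n : ℝ) * a) - ee (-(n : ℝ) * b))).re := by
    unfold wW
    rw [mul_sub, Complex.sub_re]; ring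
  rw [h1]
  calc |(ω * (ee (-(n : ℝ) * a) - ee (-(n : ℝ) * b))).re|
      ≤ ‖ω * (ee (-(n : ℝ) * a) - ee (-(n : ℝ) * b))‖ := Complex.abs_re_le_norm _
    _ = ‖ω‖ * ‖ee (-(n : ℝ) * a) - ee (-(n : ℝ) * b)‖ := norm_mul _ _
    _ ≤ 1 * |(-(n : ℝ) * a) - (-(n : ℝ) * b)| :=
        mul_le_mul hω (ee_lip _ _) (norm_nonneg _) zero_le_one
    _ = (n : ℝ) * |a - b| := by
        rw [one_mul, show (-(n : ℝ) * a) - (-(n : ℝ) * b) = -((n : ℝ) * (a - b)) by ring, abs_neg,
          abs_mul, abs_of_nonneg (Nat.cast_nonneg n)]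
    _ ≤ 10 * |a - b| := by
        apply mul_le_mul_of_nonneg_right _ (abs_nonneg _)
        exact_mod_cast hn

/-- the main term -/
private theorem main_term {s s' : ℝ → ℝ} (hs : ∀ u, s (u + 2 * Real.pi) = s u)
    (hd : ∀ u, HasDerivAt s (s' u) u) (hc : Continuous s') {δ : ℝ} (hδ : δ ≤ 1 / 2)
    (hb : ∀ u, |s' u| ≤ δ) {c : ℝ} (hsc : ∀ u, |s u - c| ≤ δ)
    {w : ℝ → ℝ} (hw : Continuous w) (hwp : ∀ t, w (t + 2 * Real.pi) = w t)
    {ω : ℂ} (hω : ‖ω‖ ≤ 1) {n : ℕ} (hn : n ≤ 10) :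
    (∫ t in (0 : ℝ)..(2 * Real.pi), w t * wW ω n (t - c)) - 24 * (δ * n1 w) ≤
      ∫ u in (0 : ℝ)..(2 * Real.pi), w (u + s u) * wW ω n u := by
  have hδ0 : 0 ≤ δ := (abs_nonneg _).trans (hb 0)
  have hscc : Continuous s := continuous_iff_continuousAt.2 fun u => (hd u).continuousAt
  have hW := wW_cont ω n
  have h1 := subst_int hs hd hc (g := fun t => w t * wW ω n (t - c)) (by fun_prop) (by
    intro t
    show w (t + 2 * Real.pi) * wW ω n (t + 2 * Real.pi - c) = w t * wW ω n (t - c)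
    rw [hwp, show t + 2 * Real.pi - c = (t - c) + 2 * Real.pi by ring, wW_per])
  have h2 := subst_le hs hd hc (fun u => (hb u).trans hδ) (g := fun t => |w t|) (by fun_prop)
    (fun t => by simp only [hwp]) (fun t => abs_nonneg _)
  have h3 : (∫ u in (0 : ℝ)..(2 * Real.pi), w (u + s u) * wW ω n (u + s u - c) * (1 + s' u))
      - (∫ u in (0 : ℝ)..(2 * Real.pi), 12 * δ * |w (u + s u)|) ≤
      ∫ u in (0 : ℝ)..(2 * Real.pi), w (u + s u) * wW ω n u := by
    rw [← intervalIntegral.integral_sub]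
    · apply intervalIntegral.integral_mono_on pi_pos2
      · apply Continuous.intervalIntegrable; fun_prop
      · apply Continuous.intervalIntegrable; fun_prop
      · intro u _
        have e1 : w (u + s u) * wW ω n (u + s u - c) * (1 + s' u) - w (u + s u) * wW ω n u =
          w (u + s u) * ((wW ω n (u + s u - c) - wW ω n u) + wW ω n (u + s u - c) * s' u) := by ring
        have e2 : |(wW ω n (u + s u - c) - wW ω n u) + wW ω n (u + s u - c) * s' u| ≤ 12 * δ := by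
          have a1 := wW_lip hω hn (u + s u - c) u
          have a2 : |u + s u - c - u| ≤ δ := by
            rw [show u + s u - c - u = s u - c by ring]; exact hsc u
          have a3 : |wW ω n (u + s u - c) * s' u| ≤ 2 * δ := by
            rw [abs_mul, abs_of_nonneg (wW_nonneg hω n _)]
            exact mul_le_mul (wW_le hω n _) (hb u) (abs_nonneg _) (by norm_num)
          calc _ ≤ |wW ω n (u + s u - c) - wW ω n u| + |wW ω n (u + s u - c) * s' u| :=
                abs_add_le _ _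
            _ ≤ 12 * δ := by linarith
        have e3 : |w (u + s u) * ((wW ω n (u + s u - c) - wW ω n u)
            + wW ω n (u + s u - c) * s' u)| ≤ |w (u + s u)| * (12 * δ) := by
          rw [abs_mul]
          exact mul_le_mul_of_nonneg_left e2 (abs_nonneg _)
        rw [← e1] at e3
        rw [abs_le] at e3
        linarith [e3.2]
    · apply Continuous.intervalIntegrable; fun_prop
    · apply Continuous.intervalIntegrable; fun_prop
  rw [intervalIntegral.integral_const_mul, h1] at h3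
  have h4 : 12 * δ * (∫ u in (0 : ℝ)..(2 * Real.pi), |w (u + s u)|) ≤ 24 * (δ * n1 w) := by
    unfold n1
    calc _ ≤ 12 * δ * (2 * ∫ t in (0 : ℝ)..(2 * Real.pi), |w t|) :=
          mul_le_mul_of_nonneg_left h2 (by positivity)
      _ = _ := by ring
  linarith

/-! ### the chord functions -/

private theorem exists_bd {S : (ℂ × ℂ) × (ℝ × ℝ) → ℝ} {r : ℝ} (hr : 0 < r)
    (hS : ContDiffOn ℝ 6 S (ball 0 r)) :
    ∃ M r₂ : ℝ, 0 < M ∧ 0 < r₂ ∧ r₂ ≤ r ∧
      ∀ p ∈ ball (0 : (ℂ × ℂ) × (ℝ × ℝ)) r₂, ‖fderiv ℝ S p‖ ≤ M := by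
  have hc : ContinuousOn (fderiv ℝ S) (ball 0 r) :=
    hS.continuousOn_fderiv_of_isOpen isOpen_ball (by norm_num)
  have hc0 : ContinuousAt (fderiv ℝ S) 0 := hc.continuousAt (ball_mem_nhds _ hr)
  have h1 : ∀ᶠ p in nhds (0 : (ℂ × ℂ) × (ℝ × ℝ)), ‖fderiv ℝ S p‖ < ‖fderiv ℝ S 0‖ + 1 :=
    hc0.norm.eventually (gt_mem_nhds (by linarith))
  obtain ⟨e, he, hb⟩ := Metric.eventually_nhds_iff_ball.1 h1
  refine ⟨‖fderiv ℝ S 0‖ + 1, min e r, by positivity, lt_min he hr, min_le_right _ _, ?_⟩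
  intro p hp
  exact (hb p (ball_subset_ball (min_le_left _ _) hp)).le

private theorem mem_b {x : ℂ × ℂ} {r : ℝ} (hx : ‖x‖ < r) (u : ℝ) :
    ((rot u x, 0) : (ℂ × ℂ) × (ℝ × ℝ)) ∈ ball (0 : (ℂ × ℂ) × (ℝ × ℝ)) r := by
  rw [mem_ball_zero_iff, Prod.norm_def]
  simpa [norm_rot] using hx

private theorem mem_b2 {x : ℂ × ℂ} {a : ℝ × ℝ} {r : ℝ} (hx : ‖x‖ < r) (ha : ‖a‖ < r) (u : ℝ) :
    ((rot u x, a) : (ℂ × ℂ) × (ℝ × ℝ)) ∈ ball (0 : (ℂ × ℂ) × (ℝ × ℝ)) r := by
  rw [mem_ball_zero_iff, Prod.norm_def]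
  exact max_lt (by simpa [norm_rot] using hx) ha

private theorem exists_s {S : (ℂ × ℂ) × (ℝ × ℝ) → ℝ} {r : ℝ} (hr : 0 < r)
    (hS : ContDiffOn ℝ 6 S (ball 0 r)) :
    ∃ M r₂ : ℝ, 0 < M ∧ 0 < r₂ ∧ r₂ ≤ r ∧ ∀ x : ℂ × ℂ, ‖x‖ < r₂ → ∃ s' : ℝ → ℝ,
      (∀ u, HasDerivAt (fun u => S (rot u x, 0)) (s' u) u) ∧ Continuous s' ∧
      (∀ u, |s' u| ≤ M * ‖x‖) ∧ ∀ u, |S (rot u x, 0) - S 0| ≤ M * ‖x‖ := by
  obtain ⟨M, r₂, hM, hr₂, hle, hb⟩ := exists_bd hr hS
  refine ⟨5 * M, r₂, by positivity, hr₂, hle, ?_⟩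
  intro x hx
  have hmem : ∀ u, ((rot u x, 0) : (ℂ × ℂ) × (ℝ × ℝ)) ∈ ball (0 : (ℂ × ℂ) × (ℝ × ℝ)) r :=
    mem_b (hx.trans_le hle)
  have hdiff : ∀ p ∈ ball (0 : (ℂ × ℂ) × (ℝ × ℝ)) r, HasFDerivAt S (fderiv ℝ S p) p := fun p hp =>
    ((hS.differentiableOn (by norm_num)).differentiableAt
      (isOpen_ball.mem_nhds hp)).hasFDerivAt
  have hrd : ∀ u, HasDerivAt (fun u => ((rot u x, 0) : (ℂ × ℂ) × (ℝ × ℝ)))
      ((-3 * Complex.I * (rot u x).1, -5 * Complex.I * (rot u x).2), 0) u := fun u =>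
    (hasDerivAt_rot x u).prodMk (hasDerivAt_const u 0)
  refine ⟨fun u => fderiv ℝ S (rot u x, 0)
    ((-3 * Complex.I * (rot u x).1, -5 * Complex.I * (rot u x).2), 0), ?_, ?_, ?_, ?_⟩
  · intro u
    exact (hdiff _ (hmem u)).comp_hasDerivAt u (hrd u)
  · have hc : ContinuousOn (fderiv ℝ S) (ball 0 r) :=
      hS.continuousOn_fderiv_of_isOpen isOpen_ball (by norm_num)
    have hr0 := continuous_rot x
    have hee := continuous_ee
    have h1 : Continuous (fun u => fderiv ℝ S (rot u x, 0)) :=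
      hc.comp_continuous (f := fun u => ((rot u x, 0) : (ℂ × ℂ) × (ℝ × ℝ))) (by fun_prop) hmem
    have h2 : Continuous (fun u => (((-3 * Complex.I * (rot u x).1,
      -5 * Complex.I * (rot u x).2), 0) : (ℂ × ℂ) × (ℝ × ℝ))) := by fun_prop
    exact h1.clm_apply h2
  · intro u
    have h1 := hb _ (mem_b hx u)
    have h2 : ‖(((-3 * Complex.I * (rot u x).1, -5 * Complex.I * (rot u x).2), 0) :
        (ℂ × ℂ) × (ℝ × ℝ))‖ ≤ 5 * ‖x‖ := by
      have a1 := fst_le (rot u x)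
      have a2 := snd_le (rot u x)
      rw [norm_rot] at a1 a2
      have a3 := norm_nonneg x
      rw [Prod.norm_def, Prod.norm_def]
      simp only [norm_mul, norm_neg, Complex.norm_I, Complex.norm_ofNat, norm_zero, mul_one]
      refine max_le (max_le ?_ ?_) ?_ <;> linarith
    calc _ ≤ ‖fderiv ℝ S (rot u x, 0)‖ * ‖(((-3 * Complex.I * (rot u x).1,
            -5 * Complex.I * (rot u x).2), 0) : (ℂ × ℂ) × (ℝ × ℝ))‖ :=
          ContinuousLinearMap.le_opNorm _ _
      _ ≤ M * (5 * ‖x‖) := mul_le_mul h1 h2 (norm_nonneg _) hM.le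
      _ = 5 * M * ‖x‖ := by ring
  · intro u
    have h1 := (convex_ball (0 : (ℂ × ℂ) × (ℝ × ℝ)) r₂).norm_image_sub_le_of_norm_fderiv_le
      (𝕜 := ℝ) (f := S) (C := M)
      (fun p hp => (hdiff p (ball_subset_ball hle hp)).differentiableAt) hb
      (mem_ball_self hr₂) (mem_b hx u)
    rw [Real.norm_eq_abs, sub_zero] at h1
    have h2 : ‖((rot u x, 0) : (ℂ × ℂ) × (ℝ × ℝ))‖ = ‖x‖ := by
      rw [Prod.norm_def]; simp [norm_rot]
    rw [h2] at h1
    have := mul_nonneg hM.le (norm_nonneg x)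
    linarith

private theorem rot_lip (x : ℂ × ℂ) (u u' : ℝ) : ‖rot u x - rot u' x‖ ≤ 5 * ‖x‖ * |u - u'| := by
  have e : rot u x - rot u' x = ((ee (-3 * u) - ee (-3 * u')) * x.1,
      (ee (-5 * u) - ee (-5 * u')) * x.2) := by
    apply Prod.ext <;> simp [rot, sub_mul]
  have h3 := ee_lip (-3 * u) (-3 * u')
  have h5 := ee_lip (-5 * u) (-5 * u')
  rw [show -3 * u - -3 * u' = -(3 * (u - u')) by ring, abs_neg, abs_mul,
    abs_of_pos (by norm_num : (0 : ℝ) < 3)] at h3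
  rw [show -5 * u - -5 * u' = -(5 * (u - u')) by ring, abs_neg, abs_mul,
    abs_of_pos (by norm_num : (0 : ℝ) < 5)] at h5
  rw [e, Prod.norm_def]
  have a1 := fst_le x
  have a2 := snd_le x
  have n0 := abs_nonneg (u - u')
  have n1 := norm_nonneg x
  refine max_le ?_ ?_
  · rw [norm_mul]
    calc _ ≤ (3 * |u - u'|) * ‖x‖ := mul_le_mul h3 a1 (norm_nonneg _) (by positivity)
      _ ≤ _ := by nlinarith
  · rw [norm_mul]
    calc _ ≤ (5 * |u - u'|) * ‖x‖ := mul_le_mul h5 a2 (norm_nonneg _) (by positivity)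
      _ = _ := by ring

private theorem rough_th {r' C' : ℝ} {S : (ℂ × ℂ) × (ℝ × ℝ) → ℝ} (hC' : 0 < C')
    (hS : ∀ p ∈ ball (0 : (ℂ × ℂ) × (ℝ × ℝ)) r', DifferentiableAt ℝ S p)
    (hl : ∀ p ∈ ball (0 : (ℂ × ℂ) × (ℝ × ℝ)) r', ∀ q ∈ ball (0 : (ℂ × ℂ) × (ℝ × ℝ)) r',
      |(S p - S (p.1, 0)) - (S q - S (q.1, 0))| ≤ C' * (‖p.2 - q.2‖ + ‖p.2‖ * ‖p.1 - q.1‖))
    {x : ℂ × ℂ} (hx : ‖x‖ < r') (hx1 : ‖x‖ ≤ 1) {η : ℝ} (hη0 : 0 ≤ η) (hη : η < r')
    (hC : 7 * C' * η ≤ 1 / 10) {a : ℝ → ℝ × ℝ} (ha : ∀ u, a (u + 2 * Real.pi) = a u)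
    (hab : ∀ u, ‖a u‖ ≤ η) (hal : ∀ u u', ‖a u - a u'‖ ≤ 2 * η * |u - u'|)
    (had : ∀ u, ∃ a', HasDerivWithinAt a a' (Ioi u) u) :
    ∃ θ', Rough (1 / 10) (fun u => S (rot u x, a u) - S (rot u x, 0)) θ' := by
  set θ : ℝ → ℝ := fun u => S (rot u x, a u) - S (rot u x, 0) with hθ
  have hlip : ∀ u u', |θ u - θ u'| ≤ 1 / 10 * |u - u'| := by
    intro u u'
    have h1 := hl _ (mem_b2 hx ((hab u).trans_lt hη) u) _ (mem_b2 hx ((hab u').trans_lt hη) u')
    simp only at h1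
    have h2 := rot_lip x u u'
    have h3 := hal u u'
    have n0 := abs_nonneg (u - u')
    have h4 : ‖a u‖ * ‖rot u x - rot u' x‖ ≤ η * (5 * |u - u'|) := by
      refine mul_le_mul (hab u) (h2.trans ?_) (norm_nonneg _) hη0
      nlinarith
    calc |θ u - θ u'| ≤ C' * (‖a u - a u'‖ + ‖a u‖ * ‖rot u x - rot u' x‖) := h1
      _ ≤ C' * (2 * η * |u - u'| + η * (5 * |u - u'|)) :=
          mul_le_mul_of_nonneg_left (add_le_add h3 h4) hC'.le
      _ = 7 * C' * η * |u - u'| := by ring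
      _ ≤ 1 / 10 * |u - u'| := mul_le_mul_of_nonneg_right hC n0
  have hcon : Continuous θ := by
    have : LipschitzWith (1 / 10 : NNReal) θ := by
      apply LipschitzWith.of_dist_le_mul
      intro u u'
      rw [Real.dist_eq, Real.dist_eq]
      have := hlip u u'
      simpa using this
    exact this.continuous
  have hdr : ∀ u, DifferentiableWithinAt ℝ θ (Ioi u) u := by
    intro u
    obtain ⟨a', ha'⟩ := had u
    have h1 := ((hasDerivAt_rot x u).hasDerivWithinAt (s := Ioi u)).prodMk ha'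
    have h2 := ((hasDerivAt_rot x u).hasDerivWithinAt (s := Ioi u)).prodMk
      (hasDerivWithinAt_const u (Ioi u) (0 : ℝ × ℝ))
    have h3 := ((hS _ (mem_b2 hx ((hab u).trans_lt hη) u)).hasFDerivAt).comp_hasDerivWithinAt u h1
    have h4 := ((hS _ (mem_b hx u)).hasFDerivAt).comp_hasDerivWithinAt u h2
    exact (h3.sub h4).differentiableWithinAt
  refine ⟨fun u => derivWithin θ (Ioi u) u, ?_, ?_, hcon, fun u => (hdr u).hasDerivWithinAt,
    measurable_derivWithin_Ioi θ, ?_, ?_⟩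
  · intro u
    simp only [hθ, rot_per, ha]
  · intro u
    have h1 : HasDerivWithinAt θ (derivWithin θ (Ioi u) u) (Ioi u) u := (hdr u).hasDerivWithinAt
    have h2 : HasDerivWithinAt (fun y : ℝ => y - 2 * Real.pi) 1 (Ioi (u + 2 * Real.pi))
        (u + 2 * Real.pi) := ((hasDerivAt_id _).sub_const _).hasDerivWithinAt
    have h3 : HasDerivWithinAt (θ ∘ (fun y : ℝ => y - 2 * Real.pi)) (derivWithin θ (Ioi u) u * 1)
        (Ioi (u + 2 * Real.pi)) (u + 2 * Real.pi) := by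
      apply HasDerivWithinAt.comp_of_eq (s' := Ioi u) (y := u) _ h1 h2
      · intro y hy
        simp only [mem_Ioi] at hy ⊢
        linarith
      · ring
    have h4 : θ ∘ (fun y : ℝ => y - 2 * Real.pi) = θ := by
      funext y
      have e : y = (y - 2 * Real.pi) + 2 * Real.pi := by ring
      have : θ ((y - 2 * Real.pi) + 2 * Real.pi) = θ (y - 2 * Real.pi) := by
        simp only [hθ, rot_per, ha]
      rw [← e] at this
      exact this.symm
    rw [h4, mul_one] at h3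
    exact h3.derivWithin (uniqueDiffWithinAt_Ioi _)
  · intro u
    have h1 := hl _ (mem_b2 hx ((hab u).trans_lt hη) u) _ (mem_b hx u)
    simp only [sub_self, sub_zero, norm_zero, mul_zero, add_zero] at h1
    have : C' * ‖a u‖ ≤ C' * η := mul_le_mul_of_nonneg_left (hab u) hC'.le
    have h2 : 0 ≤ C' * η := by positivity
    calc |θ u| ≤ C' * ‖a u‖ := h1
      _ ≤ 1 / 10 := by linarith
  · intro u
    have h1 : Tendsto (slope θ u) (nhdsWithin u (Ioi u)) (nhds (derivWithin θ (Ioi u) u)) :=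
      (hasDerivWithinAt_iff_tendsto_slope' (by simp)).1 (hdr u).hasDerivWithinAt
    refine le_of_tendsto h1.abs ?_
    filter_upwards [self_mem_nhdsWithin] with y hy
    have hy' : 0 < y - u := sub_pos.2 hy
    rw [slope_def_field, abs_div, abs_of_pos hy', div_le_iff₀ hy']
    have := hlip y u
    rwa [abs_of_pos hy'] at this

private theorem int_lin {F1 F2 F3 G1 G2 H1 H2 H3 H4 : ℝ → ℝ} (f1 : Continuous F1)
    (f2 : Continuous F2) (f3 : Continuous F3) (g1 : Continuous G1) (g2 : Continuous G2)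
    (h1 : Continuous H1) (h2 : Continuous H2) (h3 : Continuous H3) (h4 : Continuous H4)
    (k l a b : ℝ) :
    ∫ u in a..b, (F1 u + F2 u + F3 u - k * (G1 u + G2 u) - l * (H1 u + H2 u + H3 u + H4 u)) =
      (∫ u in a..b, F1 u) + (∫ u in a..b, F2 u) + (∫ u in a..b, F3 u)
      - k * ((∫ u in a..b, G1 u) + ∫ u in a..b, G2 u)
      - l * ((∫ u in a..b, H1 u) + (∫ u in a..b, H2 u) + (∫ u in a..b, H3 u)
        + ∫ u in a..b, H4 u) := by
  have i : ∀ {f : ℝ → ℝ}, Continuous f → IntervalIntegrable f volume a b := fun h =>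
    h.intervalIntegrable _ _
  rw [intervalIntegral.integral_sub (i (by fun_prop)) (i (by fun_prop)),
    intervalIntegral.integral_sub (i (by fun_prop)) (i (by fun_prop)),
    intervalIntegral.integral_add (i (by fun_prop)) (i (by fun_prop)),
    intervalIntegral.integral_add (i (by fun_prop)) (i (by fun_prop)),
    intervalIntegral.integral_const_mul, intervalIntegral.integral_const_mul,
    intervalIntegral.integral_add (i (by fun_prop)) (i (by fun_prop)),
    intervalIntegral.integral_add (i (by fun_prop)) (i (by fun_prop)),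
    intervalIntegral.integral_add (i (by fun_prop)) (i (by fun_prop)),
    intervalIntegral.integral_add (i (by fun_prop)) (i (by fun_prop))]

private theorem kmul {κ K X a b : ℝ} (hκ : |κ - 1| ≤ K * X) (hKX : K * X ≤ 1) :
    a - K * X * |a| - 2 * |b - a| ≤ κ * b := by
  have e : κ * b = a + (b - a) + (κ - 1) * a + (κ - 1) * (b - a) := by ring
  have h1 : |(κ - 1) * a| ≤ K * X * |a| := by
    rw [abs_mul]; exact mul_le_mul_of_nonneg_right hκ (abs_nonneg _)
  have h2 : |(κ - 1) * (b - a)| ≤ 1 * |b - a| := by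
    rw [abs_mul]; exact mul_le_mul_of_nonneg_right (hκ.trans hKX) (abs_nonneg _)
  have h3 := neg_abs_le ((κ - 1) * a)
  have h4 := neg_abs_le ((κ - 1) * (b - a))
  have h5 := neg_abs_le (b - a)
  rw [e]; linarith

private theorem ptw {c κp κm a1 a2 b1 b2 W K X C₁ η : ℝ} (hκp : |κp - 1| ≤ K * X)
    (hκm : |κm - 1| ≤ K * X) (hKX : K * X ≤ 1) (hW : 0 ≤ W) (hW2 : W ≤ 2) (hC₁ : 0 ≤ C₁)
    (hηX : η + X ≤ 1) :
    c * W + a1 * W + a2 * W - (2 * (K * X)) * (|a1| + |a2|)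
      - (2 * (2 + C₁)) * (a1 ^ 2 + a2 ^ 2 + |b1 - a1| + |b2 - a2|) ≤
    (c + κp * b1 + κm * b2 - 5 / 6 * (a1 ^ 2 + a2 ^ 2) - 4 / 3 * (a1 * a2)
      - C₁ * ((η + X) * (a1 ^ 2 + a2 ^ 2 + |b1 - a1| + |b2 - a2|))) * W := by
  have k1 := kmul (a := a1) (b := b1) hκp hKX
  have k2 := kmul (a := a2) (b := b2) hκm hKX
  have hKX0 : 0 ≤ K * X := (abs_nonneg _).trans hκp
  set Q := a1 ^ 2 + a2 ^ 2 + |b1 - a1| + |b2 - a2| with hQ
  have hQ0 : 0 ≤ Q := by positivity
  have h1 : C₁ * ((η + X) * Q) ≤ C₁ * Q := by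
    apply mul_le_mul_of_nonneg_left _ hC₁
    nlinarith
  have h2 : 4 / 3 * (a1 * a2) ≤ 2 / 3 * (a1 ^ 2 + a2 ^ 2) := by nlinarith [sq_nonneg (a1 - a2)]
  have n1 := abs_nonneg (b1 - a1)
  have n2 := abs_nonneg (b2 - a2)
  have n3 := abs_nonneg a1
  have n4 := abs_nonneg a2
  have n5 := sq_nonneg a1
  have n6 := sq_nonneg a2
  set E := K * X * (|a1| + |a2|) + (2 + C₁) * Q with hE
  have hE0 : 0 ≤ E := by positivity
  have h3 : c + a1 + a2 - E ≤ c + κp * b1 + κm * b2 - 5 / 6 * (a1 ^ 2 + a2 ^ 2)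
      - 4 / 3 * (a1 * a2) - C₁ * ((η + X) * Q) := by
    rw [hE]
    have : 5 / 6 * (a1 ^ 2 + a2 ^ 2) + 2 / 3 * (a1 ^ 2 + a2 ^ 2) + 2 * |b1 - a1| + 2 * |b2 - a2|
        ≤ 2 * Q := by rw [hQ]; linarith
    linarith
  have h4 := mul_le_mul_of_nonneg_right h3 hW
  have h5 : E * W ≤ E * 2 := mul_le_mul_of_nonneg_left hW2 hE0
  calc _ = (c + a1 + a2) * W - E * 2 := by rw [hE]; ring
    _ ≤ (c + a1 + a2 - E) * W := by linarith
    _ ≤ _ := h4

private theorem kap_bd {v : ℂ × ℂ} {κ e₁ e₂ C' : ℝ} (he₁ : |e₁| ≤ 2) (he₂ : |e₂| ≤ 1)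
    (h : |κ - (1 + (2 * k3 v + e₁ * s3 v - 17 / 2 * k5 v - e₂ * s5 v))| ≤ C' * ‖v‖ ^ 2)
    (hv : ‖v‖ ≤ 1) (hC' : 0 < C') : |κ - 1| ≤ (14 + C') * ‖v‖ := by
  have a1 := (abs_k3 v).trans (fst_le v)
  have a2 := (abs_s3 v).trans (fst_le v)
  have a3 := (abs_k5 v).trans (snd_le v)
  have a4 := (abs_s5 v).trans (snd_le v)
  have b1 : |e₁ * s3 v| ≤ 2 * ‖v‖ := by
    rw [abs_mul]; exact mul_le_mul he₁ a2 (abs_nonneg _) (by norm_num)
  have b2 : |e₂ * s5 v| ≤ 1 * ‖v‖ := by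
    rw [abs_mul]; exact mul_le_mul he₂ a4 (abs_nonneg _) (by norm_num)
  have b3 : C' * ‖v‖ ^ 2 ≤ C' * ‖v‖ := by
    apply mul_le_mul_of_nonneg_left _ hC'.le
    nlinarith [norm_nonneg v]
  rw [abs_le] at *
  have := norm_nonneg v
  constructor <;> nlinarith

private theorem sq_bd {A B C' : ℝ} (hA : 0 ≤ A) (hC' : 0 < C') (hB : B ≤ 160 * C' ^ 2 * A) :
    Real.sqrt A * Real.sqrt B ≤ 13 * C' * A := by
  rw [← Real.sqrt_mul hA]
  apply Real.sqrt_le_iff.2
  constructor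
  · positivity
  · calc A * B ≤ A * (160 * C' ^ 2 * A) := mul_le_mul_of_nonneg_left hB hA
      _ ≤ (13 * C' * A) ^ 2 := by nlinarith [sq_nonneg (C' * A)]

theorem hCI3 (h : StSha) : StCi3 := by
  obtain ⟨Csh, hCsh, hsha⟩ := h
  intro r sp sm hch r' C' κp κm hr' hT
  obtain ⟨Mp, rp, hMp, hrp, hrpr, hp⟩ := exists_s hch.pos hch.cp
  obtain ⟨Mm, rm, hMm, hrm, hrmr, hm⟩ := exists_s hch.pos hch.cm
  have hC' := hT.posC
  have hrr := hT.pos
  set r₁ : ℝ := min (min (rp / 2) (rm / 2)) (min (min (r' / 2) (1 / 2))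
    (min (min (1 / (10 * Mp)) (1 / (10 * Mm))) (min (1 / (70 * C')) (1 / (14 + C'))))) with hr₁
  have hr₁0 : 0 < r₁ := by
    rw [hr₁]
    have := hch.pos
    repeat' apply lt_min
    all_goals positivity
  refine ⟨24 * (Mp + Mm) + 8 * (14 + C') + 4 * (160 + 26 * Csh * C') + 1, r₁, by positivity,
    hr₁0, ?_⟩
  intro C₁ η x w w' ω n hC₁ hx hη hR hmean hω hn
  have hη0 := hR.eta_nonneg
  have l1 : r₁ ≤ rp / 2 := (min_le_left _ _).trans (min_le_left _ _)
  have l2 : r₁ ≤ rm / 2 := (min_le_left _ _).trans (min_le_right _ _)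
  have l3 : r₁ ≤ r' / 2 := (min_le_right _ _).trans ((min_le_left _ _).trans (min_le_left _ _))
  have l4 : r₁ ≤ 1 / 2 := (min_le_right _ _).trans ((min_le_left _ _).trans (min_le_right _ _))
  have l5 : r₁ ≤ 1 / (10 * Mp) := (min_le_right _ _).trans ((min_le_right _ _).trans
    ((min_le_left _ _).trans (min_le_left _ _)))
  have l6 : r₁ ≤ 1 / (10 * Mm) := (min_le_right _ _).trans ((min_le_right _ _).trans
    ((min_le_left _ _).trans (min_le_right _ _)))
  have l7 : r₁ ≤ 1 / (70 * C') := (min_le_right _ _).trans ((min_le_right _ _).trans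
    ((min_le_right _ _).trans (min_le_left _ _)))
  have l8 : r₁ ≤ 1 / (14 + C') := (min_le_right _ _).trans ((min_le_right _ _).trans
    ((min_le_right _ _).trans (min_le_right _ _)))
  have hxp : ‖x‖ < rp := by linarith
  have hxm : ‖x‖ < rm := by linarith
  have hxr : ‖x‖ < r' := by linarith
  have hηr : η < r' := by linarith
  have hx1 : ‖x‖ ≤ 1 := by linarith
  have hηx : η + ‖x‖ ≤ 1 := by linarith
  have hx0 := norm_nonneg x
  have hMpx : Mp * ‖x‖ ≤ 1 / 10 := by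
    have := hx.trans l5
    rw [le_div_iff₀ (by positivity)] at this
    linarith
  have hMmx : Mm * ‖x‖ ≤ 1 / 10 := by
    have := hx.trans l6
    rw [le_div_iff₀ (by positivity)] at this
    linarith
  have hC7 : 7 * C' * η ≤ 1 / 10 := by
    have := hη.trans l7
    rw [le_div_iff₀ (by positivity)] at this
    linarith
  have hKx : (14 + C') * ‖x‖ ≤ 1 := by
    have := hx.trans l8
    rw [le_div_iff₀ (by positivity)] at this
    linarith
  obtain ⟨tp, htp1, htp2, htp3, htp4⟩ := hp x hxp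
  obtain ⟨tm, htm1, htm2, htm3, htm4⟩ := hm x hxm
  have perp : ∀ u, sp (rot (u + 2 * Real.pi) x, 0) = sp (rot u x, 0) := fun u => by rw [rot_per]
  have perm : ∀ u, sm (rot (u + 2 * Real.pi) x, 0) = sm (rot u x, 0) := fun u => by rw [rot_per]
  have csp : Continuous (fun u => sp (rot u x, 0)) :=
    continuous_iff_continuousAt.2 fun u => (htp1 u).continuousAt
  have csm : Continuous (fun u => sm (rot u x, 0)) :=
    continuous_iff_continuousAt.2 fun u => (htm1 u).continuousAt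
  have hwc := hR.con
  -- `z0`
  have cz0 : Continuous (z0 sp sm w x) := by
    exact (hwc.comp (continuous_id.add csp)).prodMk (hwc.comp (continuous_id.add csm))
  have pz0 : ∀ u, z0 sp sm w x (u + 2 * Real.pi) = z0 sp sm w x u := by
    intro u
    unfold z0
    rw [rot_per, show ∀ b : ℝ, u + 2 * Real.pi + b = (u + b) + 2 * Real.pi by intro b; ring,
      show ∀ b : ℝ, u + 2 * Real.pi + b = (u + b) + 2 * Real.pi by intro b; ring, hR.per, hR.per]
  have bz0 : ∀ u, ‖z0 sp sm w x u‖ ≤ η := by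
    intro u
    unfold z0
    rw [Prod.norm_def]
    exact max_le (hR.bdd _) (hR.bdd _)
  have slip : ∀ {s s' : ℝ → ℝ} {M : ℝ}, (∀ u, HasDerivAt s (s' u) u) → (∀ u, |s' u| ≤ M * ‖x‖) →
      M * ‖x‖ ≤ 1 / 10 → ∀ u u', |s u - s u'| ≤ 1 / 10 * |u - u'| := by
    intro s s' M h1 h2 h3 u u'
    have := Convex.norm_image_sub_le_of_norm_hasDerivWithin_le (f := s) (C := 1 / 10) (s := univ)
      (fun x _ => (h1 x).hasDerivWithinAt) (fun x _ => (h2 x).trans h3) convex_univ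
      (mem_univ u') (mem_univ u)
    simpa using this
  have wlip : ∀ {s : ℝ → ℝ}, (∀ u u', |s u - s u'| ≤ 1 / 10 * |u - u'|) → ∀ u u',
      |w (u + s u) - w (u' + s u')| ≤ 2 * η * |u - u'| := by
    intro s hs u u'
    have h1 := hR.lip (u + s u) (u' + s u')
    have h2 : |u + s u - (u' + s u')| ≤ 2 * |u - u'| := by
      rw [show u + s u - (u' + s u') = (u - u') + (s u - s u') by ring]
      have := abs_add_le (u - u') (s u - s u')
      have := hs u u'
      have := abs_nonneg (u - u')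
      linarith
    calc _ ≤ η * |u + s u - (u' + s u')| := h1
      _ ≤ η * (2 * |u - u'|) := mul_le_mul_of_nonneg_left h2 hη0
      _ = _ := by ring
  have lz0 : ∀ u u', ‖z0 sp sm w x u - z0 sp sm w x u'‖ ≤ 2 * η * |u - u'| := by
    intro u u'
    unfold z0
    rw [Prod.norm_def]
    exact max_le (wlip (slip htp1 htp3 hMpx) u u') (wlip (slip htm1 htm3 hMmx) u u')
  have wder : ∀ {s s' : ℝ → ℝ} {M : ℝ}, (∀ u, HasDerivAt s (s' u) u) →
      (∀ u, |s' u| ≤ M * ‖x‖) → M * ‖x‖ ≤ 1 / 10 → ∀ u, ∃ d,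
      HasDerivWithinAt (fun u => w (u + s u)) d (Ioi u) u := by
    intro s s' M h1 h2 h3 u
    have h4 := hR.der (u + s u)
    have h5 : HasDerivWithinAt (fun u => u + s u) (1 + s' u) (Ioi u) u :=
      ((hasDerivAt_id u).add (h1 u)).hasDerivWithinAt
    refine ⟨_, HasDerivWithinAt.comp u h4 h5 ?_⟩
    intro y hy
    simp only [mem_Ioi] at hy ⊢
    have h6 := slip h1 h2 h3 y u
    rw [abs_of_pos (sub_pos.2 hy), abs_le] at h6
    linarith [h6.1]
  have dz0 : ∀ u, ∃ a', HasDerivWithinAt (z0 sp sm w x) a' (Ioi u) u := by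
    intro u
    obtain ⟨d1, hd1⟩ := wder htp1 htp3 hMpx u
    obtain ⟨d2, hd2⟩ := wder htm1 htm3 hMmx u
    exact ⟨(d1, d2), hd1.prodMk hd2⟩
  have dsp : ∀ p ∈ ball (0 : (ℂ × ℂ) × (ℝ × ℝ)) r, DifferentiableAt ℝ sp p := fun p hp =>
    (hch.cp.differentiableOn (by norm_num)).differentiableAt (isOpen_ball.mem_nhds hp)
  have dsm : ∀ p ∈ ball (0 : (ℂ × ℂ) × (ℝ × ℝ)) r, DifferentiableAt ℝ sm p := fun p hp =>
    (hch.cm.differentiableOn (by norm_num)).differentiableAt (isOpen_ball.mem_nhds hp)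
  have mem0 : ∀ u, ((rot u x, z0 sp sm w x u) : (ℂ × ℂ) × (ℝ × ℝ)) ∈
      ball (0 : (ℂ × ℂ) × (ℝ × ℝ)) r' := fun u => mem_b2 hxr ((bz0 u).trans_lt hηr) u
  obtain ⟨θp', hθp⟩ := rough_th (S := sp) hC' (fun p hp => dsp p (ball_subset_ball hr' hp))
    hT.lp hxr hx1 hη0 hηr hC7 pz0 bz0 lz0 dz0
  obtain ⟨θm', hθm⟩ := rough_th (S := sm) hC' (fun p hp => dsm p (ball_subset_ball hr' hp))
    hT.lm hxr hx1 hη0 hηr hC7 pz0 bz0 lz0 dz0
  have hR1 : Rough 1 w w' := hR.mono (by linarith)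
  have hsp := (hsha (1 / 10) w w' _ tp _ θp' le_rfl hR1 perp htp1 htp2
    (fun u => (htp3 u).trans hMpx) hθp).1
  have hsm := (hsha (1 / 10) w w' _ tm _ θm' le_rfl hR1 perm htm1 htm2
    (fun u => (htm3 u).trans hMmx) hθm).1
  -- the functions
  set a1 : ℝ → ℝ := fun u => w (u + sp (rot u x, 0)) with ha1
  set a2 : ℝ → ℝ := fun u => w (u + sm (rot u x, 0)) with ha2
  set b1 : ℝ → ℝ := fun u => (z1 sp sm w x u).1 with hb1
  set b2 : ℝ → ℝ := fun u => (z1 sp sm w x u).2 with hb2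
  have eb1 : ∀ u, b1 u = w (u + sp (rot u x, 0)
      + (sp (rot u x, z0 sp sm w x u) - sp (rot u x, 0))) := by
    intro u
    show w (u + sp (rot u x, z0 sp sm w x u)) = _
    congr 1; ring
  have eb2 : ∀ u, b2 u = w (u + sm (rot u x, 0)
      + (sm (rot u x, z0 sp sm w x u) - sm (rot u x, 0))) := by
    intro u
    show w (u + sm (rot u x, z0 sp sm w x u)) = _
    congr 1; ring
  have ca1 : Continuous a1 := hwc.comp (continuous_id.add csp)
  have ca2 : Continuous a2 := hwc.comp (continuous_id.add csm)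
  have cth1 := hθp.con
  have cth2 := hθm.con
  have cb1 : Continuous b1 := by
    have : b1 = fun u => w (u + sp (rot u x, 0)
      + (sp (rot u x, z0 sp sm w x u) - sp (rot u x, 0))) := funext eb1
    rw [this]
    exact hwc.comp ((continuous_id.add csp).add cth1)
  have cb2 : Continuous b2 := by
    have : b2 = fun u => w (u + sm (rot u x, 0)
      + (sm (rot u x, z0 sp sm w x u) - sm (rot u x, 0))) := funext eb2
    rw [this]
    exact hwc.comp ((continuous_id.add csm).add cth2)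
  have ccc : Continuous (fun u => cc sp (rot u x, 0)) := by
    have h1 := contDiff_zh.continuous
    have h2 : Continuous (fun u => zh (rot u x) (sp (rot u x, 0))) :=
      h1.comp ((continuous_rot x).prodMk csp)
    have h3 : (fun u => cc sp (rot u x, 0)) = fun u => (zh (rot u x) (sp (rot u x, 0))).re := by
      funext u
      simp [cc]
    rw [h3]
    exact Complex.continuous_re.comp h2
  have ecf : ∀ u, cf C₁ η sp sm κp κm w x u =
      (cc sp (rot u x, 0) + κp (rot u x) * b1 u + κm (rot u x) * b2 u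
        - 5 / 6 * (a1 u ^ 2 + a2 u ^ 2) - 4 / 3 * (a1 u * a2 u)
        - C₁ * ((η + ‖x‖) * (a1 u ^ 2 + a2 u ^ 2 + |b1 u - a1 u| + |b2 u - a2 u|))) := fun u => rfl
  have ez0 : ∀ u, z0 sp sm w x u = (a1 u, a2 u) := fun u => rfl
  have ea1 : ∀ u, a1 u = w (u + sp (rot u x, 0)) := fun u => rfl
  have ea2 : ∀ u, a2 u = w (u + sm (rot u x, 0)) := fun u => rfl
  clear_value a1 a2 b1 b2
  have cW := wW_cont ω n
  have hwp := hR.per
  have sa1 : Continuous (fun u => a1 u ^ 2) := ca1.pow 2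
  have sa2 : Continuous (fun u => a2 u ^ 2) := ca2.pow 2
  have aa1 : Continuous (fun u => |a1 u|) := ca1.abs
  have aa2 : Continuous (fun u => |a2 u|) := ca2.abs
  have ab1 : Continuous (fun u => |b1 u - a1 u|) := (cb1.sub ca1).abs
  have ab2 : Continuous (fun u => |b2 u - a2 u|) := (cb2.sub ca2).abs
  have m0c : Continuous (fun u => cc sp (rot u x, 0) * wW ω n u) := ccc.mul cW
  have m1c : Continuous (fun u => a1 u * wW ω n u) := ca1.mul cW
  have m2c : Continuous (fun u => a2 u * wW ω n u) := ca2.mul cW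
  -- integrals
  have Q0 : 0 ≤ q2 w' := intervalIntegral.integral_nonneg pi_pos2 fun t _ => sq_nonneg _
  have N0 : 0 ≤ n1 w := intervalIntegral.integral_nonneg pi_pos2 fun t _ => abs_nonneg _
  have hpo := poin hR hmean
  have hp2 : ∀ u, |tp u| ≤ 1 / 2 := fun u => (htp3 u).trans (by linarith)
  have hm2 : ∀ u, |tm u| ≤ 1 / 2 := fun u => (htm3 u).trans (by linarith)
  have iA1 : ∫ u in (0 : ℝ)..(2 * Real.pi), |a1 u| ≤ 2 * n1 w := by
    simp only [ea1]
    exact subst_le perp htp1 htp2 hp2 (g := fun t => |w t|) (by fun_prop)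
      (fun t => by simp only [hwp]) (fun t => abs_nonneg _)
  have iA2 : ∫ u in (0 : ℝ)..(2 * Real.pi), |a2 u| ≤ 2 * n1 w := by
    simp only [ea2]
    exact subst_le perm htm1 htm2 hm2 (g := fun t => |w t|) (by fun_prop)
      (fun t => by simp only [hwp]) (fun t => abs_nonneg _)
  have iS1 : ∫ u in (0 : ℝ)..(2 * Real.pi), a1 u ^ 2 ≤ 2 * q2 w := by
    simp only [ea1]
    exact subst_le perp htp1 htp2 hp2 (g := fun t => w t ^ 2) (by fun_prop)
      (fun t => by simp only [hwp]) (fun t => sq_nonneg _)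
  have iS2 : ∫ u in (0 : ℝ)..(2 * Real.pi), a2 u ^ 2 ≤ 2 * q2 w := by
    simp only [ea2]
    exact subst_le perm htm1 htm2 hm2 (g := fun t => w t ^ 2) (by fun_prop)
      (fun t => by simp only [hwp]) (fun t => sq_nonneg _)
  have thb : ∀ {S : (ℂ × ℂ) × (ℝ × ℝ) → ℝ} {th' : ℝ → ℝ},
      (∀ p ∈ ball (0 : (ℂ × ℂ) × (ℝ × ℝ)) r', ∀ q ∈ ball (0 : (ℂ × ℂ) × (ℝ × ℝ)) r',
      |(S p - S (p.1, 0)) - (S q - S (q.1, 0))| ≤ C' * (‖p.2 - q.2‖ + ‖p.2‖ * ‖p.1 - q.1‖)) →
      Rough (1 / 10) (fun u => S (rot u x, z0 sp sm w x u) - S (rot u x, 0)) th' →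
      q2 (fun u => S (rot u x, z0 sp sm w x u) - S (rot u x, 0)) ≤ 160 * C' ^ 2 * q2 w' := by
    intro S th' hl hth
    have h1 : ∀ u, (S (rot u x, z0 sp sm w x u) - S (rot u x, 0)) ^ 2 ≤
        C' ^ 2 * (a1 u ^ 2 + a2 u ^ 2) := by
      intro u
      have h2 := hl _ (mem0 u) _ (mem_b hxr u)
      simp only [sub_self, sub_zero, norm_zero, mul_zero, add_zero] at h2
      have h3 : ‖z0 sp sm w x u‖ ^ 2 ≤ a1 u ^ 2 + a2 u ^ 2 := by
        rw [ez0, Prod.norm_def]
        simp only [Real.norm_eq_abs]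
        rcases max_choice |a1 u| |a2 u| with h | h
        · rw [h, sq_abs]; nlinarith [sq_nonneg (a2 u)]
        · rw [h, sq_abs]; nlinarith [sq_nonneg (a1 u)]
      calc _ = |S (rot u x, z0 sp sm w x u) - S (rot u x, 0)| ^ 2 := (sq_abs _).symm
        _ ≤ (C' * ‖z0 sp sm w x u‖) ^ 2 := pow_le_pow_left₀ (abs_nonneg _) h2 2
        _ = C' ^ 2 * ‖z0 sp sm w x u‖ ^ 2 := by ring
        _ ≤ _ := mul_le_mul_of_nonneg_left h3 (by positivity)
    have hthc := hth.con
    calc q2 (fun u => S (rot u x, z0 sp sm w x u) - S (rot u x, 0))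
        ≤ ∫ u in (0 : ℝ)..(2 * Real.pi), C' ^ 2 * (a1 u ^ 2 + a2 u ^ 2) := by
          apply intervalIntegral.integral_mono_on pi_pos2
          · exact (hthc.pow 2).intervalIntegrable _ _
          · apply Continuous.intervalIntegrable; fun_prop
          · intro u _; exact h1 u
      _ = C' ^ 2 * ((∫ u in (0 : ℝ)..(2 * Real.pi), a1 u ^ 2)
          + ∫ u in (0 : ℝ)..(2 * Real.pi), a2 u ^ 2) := by
          rw [intervalIntegral.integral_const_mul, intervalIntegral.integral_add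
            (sa1.intervalIntegrable _ _) (sa2.intervalIntegrable _ _)]
      _ ≤ C' ^ 2 * (2 * q2 w + 2 * q2 w) :=
          mul_le_mul_of_nonneg_left (add_le_add iS1 iS2) (by positivity)
      _ ≤ C' ^ 2 * (2 * (40 * q2 w') + 2 * (40 * q2 w')) := by
          apply mul_le_mul_of_nonneg_left _ (by positivity)
          linarith
      _ = _ := by ring
  have iB1 : ∫ u in (0 : ℝ)..(2 * Real.pi), |b1 u - a1 u| ≤ Csh * (13 * C' * q2 w') := by
    simp only [eb1, ea1]
    exact hsp.trans (mul_le_mul_of_nonneg_left (sq_bd Q0 hC' (thb hT.lp hθp)) hCsh.le)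
  have iB2 : ∫ u in (0 : ℝ)..(2 * Real.pi), |b2 u - a2 u| ≤ Csh * (13 * C' * q2 w') := by
    simp only [eb2, ea2]
    exact hsm.trans (mul_le_mul_of_nonneg_left (sq_bd Q0 hC' (thb hT.lm hθm)) hCsh.le)
  have hM1 := main_term perp htp1 htp2 (δ := Mp * ‖x‖) (by linarith) htp3 (c := Real.pi / 3)
    (fun u => by have := htp4 u; rwa [hch.vp] at this) hwc hwp hω hn
  have hM2 := main_term perm htm1 htm2 (δ := Mm * ‖x‖) (by linarith) htm3 (c := -(Real.pi / 3))
    (fun u => by have := htm4 u; rwa [hch.vm] at this) hwc hwp hω hn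
  have hWW : (∫ t in (0 : ℝ)..(2 * Real.pi),
      w t * (wW ω n (t - Real.pi / 3) + wW ω n (t + Real.pi / 3))) =
      (∫ t in (0 : ℝ)..(2 * Real.pi), w t * wW ω n (t - Real.pi / 3))
      + ∫ t in (0 : ℝ)..(2 * Real.pi), w t * wW ω n (t - -(Real.pi / 3)) := by
    rw [← intervalIntegral.integral_add]
    · congr 1; funext t; rw [sub_neg_eq_add]; ring
    · apply Continuous.intervalIntegrable; fun_prop
    · apply Continuous.intervalIntegrable; fun_prop
  -- the pointwise bound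
  have hs3 : |Real.sqrt 3| ≤ 2 := by
    rw [abs_of_nonneg (Real.sqrt_nonneg _)]
    apply Real.sqrt_le_iff.2; norm_num
  have hs32 : |Real.sqrt 3 / 2| ≤ 1 := by
    rw [abs_div, abs_of_pos (by norm_num : (0 : ℝ) < 2)]; linarith
  have hball : ∀ u, rot u x ∈ ball (0 : ℂ × ℂ) r' := fun u => by
    rw [mem_ball_zero_iff, norm_rot]; exact hxr
  have hk1 : ∀ u, |κp (rot u x) - 1| ≤ (14 + C') * ‖x‖ := by
    intro u
    have h1 := hT.kp _ (hball u)
    have h2 := kap_bd (e₁ := Real.sqrt 3) (e₂ := Real.sqrt 3 / 2) hs3 hs32 h1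
      (by rw [norm_rot]; exact hx1) hC'
    rwa [norm_rot] at h2
  have hk2 : ∀ u, |κm (rot u x) - 1| ≤ (14 + C') * ‖x‖ := by
    intro u
    have h1 := hT.km _ (hball u)
    have h2 := kap_bd (κ := κm (rot u x)) (C' := C') (v := rot u x) (e₁ := -Real.sqrt 3)
      (e₂ := -(Real.sqrt 3 / 2)) (by rw [abs_neg]; exact hs3) (by rw [abs_neg]; exact hs32)
      (by
        convert h1 using 3
        ring)
      (by rw [norm_rot]; exact hx1) hC'
    rwa [norm_rot] at h2
  have hpt : ∀ u, cc sp (rot u x, 0) * wW ω n u + a1 u * wW ω n u + a2 u * wW ω n u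
      - (2 * ((14 + C') * ‖x‖)) * (|a1 u| + |a2 u|)
      - (2 * (2 + C₁)) * (a1 u ^ 2 + a2 u ^ 2 + |b1 u - a1 u| + |b2 u - a2 u|) ≤
      cf C₁ η sp sm κp κm w x u * wW ω n u := fun u => by
    rw [ecf u]
    exact ptw (hk1 u) (hk2 u) hKx (wW_nonneg hω n u) (wW_le hω n u) hC₁ hηx
  have ckp : Continuous (fun u => κp (rot u x)) :=
    hT.cp.continuousOn.comp_continuous (continuous_rot x) hball
  have ckm : Continuous (fun u => κm (rot u x)) :=
    hT.cm.continuousOn.comp_continuous (continuous_rot x) hball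
  have ccf : Continuous (fun u => cf C₁ η sp sm κp κm w x u * wW ω n u) := by
    simp only [ecf]
    exact (((((ccc.add (ckp.mul cb1)).add (ckm.mul cb2)).sub
      (continuous_const.mul (sa1.add sa2))).sub (continuous_const.mul (ca1.mul ca2))).sub
      (continuous_const.mul (continuous_const.mul (((sa1.add sa2).add ab1).add ab2)))).mul cW
  have hint := intervalIntegral.integral_mono_on (μ := volume) pi_pos2
    (f := fun u => cc sp (rot u x, 0) * wW ω n u + a1 u * wW ω n u + a2 u * wW ω n u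
      - (2 * ((14 + C') * ‖x‖)) * (|a1 u| + |a2 u|)
      - (2 * (2 + C₁)) * (a1 u ^ 2 + a2 u ^ 2 + |b1 u - a1 u| + |b2 u - a2 u|))
    (((((m0c.add m1c).add m2c).sub (continuous_const.mul (aa1.add aa2))).sub
      (continuous_const.mul (((sa1.add sa2).add ab1).add ab2))).intervalIntegrable _ _)
    (ccf.intervalIntegrable _ _)
    (fun u _ => hpt u)
  rw [int_lin m0c m1c m2c aa1 aa2 sa1 sa2 ab1 ab2] at hint
  simp only [← ea1] at hM1
  simp only [← ea2] at hM2
  rw [hWW]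
  refine le_trans ?_ hint
  have J1 : (2 * ((14 + C') * ‖x‖)) * ((∫ u in (0 : ℝ)..(2 * Real.pi), |a1 u|)
      + ∫ u in (0 : ℝ)..(2 * Real.pi), |a2 u|) ≤ 8 * (14 + C') * (‖x‖ * n1 w) := by
    calc _ ≤ (2 * ((14 + C') * ‖x‖)) * (2 * n1 w + 2 * n1 w) :=
          mul_le_mul_of_nonneg_left (add_le_add iA1 iA2) (by positivity)
      _ = _ := by ring
  have J2 : (2 * (2 + C₁)) * ((∫ u in (0 : ℝ)..(2 * Real.pi), a1 u ^ 2)
      + (∫ u in (0 : ℝ)..(2 * Real.pi), a2 u ^ 2)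
      + (∫ u in (0 : ℝ)..(2 * Real.pi), |b1 u - a1 u|)
      + ∫ u in (0 : ℝ)..(2 * Real.pi), |b2 u - a2 u|) ≤
      4 * (160 + 26 * Csh * C') * ((1 + C₁) * q2 w') := by
    have h1 : (∫ u in (0 : ℝ)..(2 * Real.pi), a1 u ^ 2)
      + (∫ u in (0 : ℝ)..(2 * Real.pi), a2 u ^ 2)
      + (∫ u in (0 : ℝ)..(2 * Real.pi), |b1 u - a1 u|)
      + (∫ u in (0 : ℝ)..(2 * Real.pi), |b2 u - a2 u|) ≤ (160 + 26 * Csh * C') * q2 w' := by
      linarith
    calc _ ≤ (2 * (2 + C₁)) * ((160 + 26 * Csh * C') * q2 w') :=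
          mul_le_mul_of_nonneg_left h1 (by positivity)
      _ ≤ (2 * (2 * (1 + C₁))) * ((160 + 26 * Csh * C') * q2 w') := by
          apply mul_le_mul_of_nonneg_right _ (by positivity)
          linarith
      _ = _ := by ring
  have X0 : 0 ≤ ‖x‖ * n1 w := mul_nonneg hx0 N0
  have J3 : 24 * (Mp * ‖x‖ * n1 w) + 24 * (Mm * ‖x‖ * n1 w) + 8 * (14 + C') * (‖x‖ * n1 w)
      + 4 * (160 + 26 * Csh * C') * ((1 + C₁) * q2 w') ≤
      (24 * (Mp + Mm) + 8 * (14 + C') + 4 * (160 + 26 * Csh * C') + 1)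
        * ((1 + C₁) * (‖x‖ * n1 w + q2 w')) := by
    have h1 : 24 * (Mp * ‖x‖ * n1 w) + 24 * (Mm * ‖x‖ * n1 w) + 8 * (14 + C') * (‖x‖ * n1 w) =
        (24 * (Mp + Mm) + 8 * (14 + C')) * (1 * (‖x‖ * n1 w)) := by ring
    have h2 : (24 * (Mp + Mm) + 8 * (14 + C')) * (1 * (‖x‖ * n1 w)) ≤
        (24 * (Mp + Mm) + 8 * (14 + C')) * ((1 + C₁) * (‖x‖ * n1 w)) := by
      apply mul_le_mul_of_nonneg_left _ (by positivity)
      apply mul_le_mul_of_nonneg_right _ X0
      linarith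
    have h3 : 0 ≤ (24 * (Mp + Mm) + 8 * (14 + C')) * ((1 + C₁) * q2 w') := by positivity
    have h4 : 0 ≤ 4 * (160 + 26 * Csh * C') * ((1 + C₁) * (‖x‖ * n1 w)) := by positivity
    have h5 : 0 ≤ (1 + C₁) * (‖x‖ * n1 w + q2 w') := by positivity
    nlinarith
  linarith

end Pool.Agent.Helper75.LT
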